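import Mathlib
import Pool.Agent.Lib.MP_fd02da_an.Contr

/-!
A contraction on the Schatten–von Neumann class `S_p(H)`, `p ≠ 2`, that is not a pw-limit (and not
even a limit in the weakest reasonable sense) of isometries of `S_p(H)`.
-/

set_option autoImplicit false

namespace Pool.Agent.Results.MP_fd02da_an.ContractionsNotPwLimits

open Filter Topology Pool.Agent.Lib.MP_fd02da_an

universe v w

/-- Let `H` be an infinite-dimensional complex Hilbert space and `p ≥ 1`, `p ≠ 2`. There is a linear
contraction `T` of `S_p(H)` such that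
* `T` is not the pw-limit of any net of isometries of `S_p(H)`;
* moreover, there is no net (and no family with a proper filter) of isometries `U i` of `S_p(H)`
  such that `⟪f, (U i a) e⟫ → ⟪f, (T a) e⟫` for all `a ∈ S_p(H)` and `e, f ∈ H`. -/
theorem result (p : ℝ) [Fact (1 ≤ p)] (hp : p ≠ 2) (H : Type v) [NormedAddCommGroup H]
    [InnerProductSpace ℂ H] [CompleteSpace H] (hH : ¬ FiniteDimensional ℂ H) :
    ∃ T : Schatten p H →L[ℂ] Schatten p H, ‖T‖ ≤ 1 ∧
      ¬ IsPwLimit.{v, w} (Isometries (Schatten p H)) T ∧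
      ∀ (ι : Type w) (l : Filter ι) (_ : l.NeBot) (U : ι → Schatten p H →L[ℂ] Schatten p H),
        (∀ i, U i ∈ Isometries (Schatten p H)) →
          ¬ ∀ (a : Schatten p H) (e f : H),
            Tendsto (fun i => (inner ℂ f ((U i a).op e) : ℂ)) l
              (𝓝 (inner ℂ f ((T a).op e))) := by
  obtain ⟨T, hT, h⟩ := main_aux.{v, w} (p := p) hH hp
  refine ⟨T, hT, ?_, h⟩
  rintro ⟨ι, hι, hdir, hne, U, hU, hconv⟩
  refine h ι atTop inferInstance U hU ?_
  intro a e f
  have h1 := hconv 1 a (coef p f e)
  simp only [pow_one] at h1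
  exact h1

end Pool.Agent.Results.MP_fd02da_an.ContractionsNotPwLimits
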